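import Pool.Agent.Lib.MP_078aef_co_v.FinW

/-!
For all `s ≥ k ≥ 2^800`, for all `2 ≤ k ≤ s ≤ max (k²/64) (k³/(2^26 log₂ k))`, and for all
`k ≥ 3906250000` and `k ≤ s ≤ 2^(k^(1/4)/100)`, every Ramsey-critical `(k,s)`-graph is
Hamiltonian.
-/

namespace Pool.Agent.Results.MP_078aef_co.AllLarge

/-- The Ramsey number `R(k,s)`: the least `n` such that every graph on `n` vertices contains
`K_k` or has independence number at least `s`. -/
noncomputable def ramsey (k s : ℕ) : ℕ :=
  sInf {n : ℕ | ∀ H : SimpleGraph (Fin n), ¬ H.CliqueFree k ∨ s ≤ H.indepNum}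

/-- A graph is Ramsey-critical if it has no `K_k`, independence number less than `s`, and
exactly `R(k,s) - 1` vertices. -/
structure IsCritical {V : Type*} [Fintype V] (k s : ℕ) (G : SimpleGraph V) : Prop where
  cliqueFree : G.CliqueFree k
  indep : G.indepNum < s
  card : Fintype.card V = ramsey k s - 1

theorem result (k s : ℕ) (hk : 2 ≤ k) (hks : k ≤ s)
    (h : 2 ^ 800 ≤ k ∨ s ≤ max (k ^ 2 / 64) (k ^ 3 / (2 ^ 26 * Nat.log 2 k)) ∨
      3906250000 ≤ k ∧ (s : ℝ) ≤ 2 ^ ((k : ℝ) ^ (1 / 4 : ℝ) / 100))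
    {V : Type*} [Fintype V] [DecidableEq V] (G : SimpleGraph V) (hG : IsCritical k s G) :
    ∃ (a : V) (p : G.Walk a a), p.IsHamiltonianCycle := by
  have hG' : Pool.Agent.RamseyHam.IsCritical k s G := ⟨hG.cliqueFree, hG.indep, hG.card⟩
  rcases h with h | h | ⟨h1, h2⟩
  · exact Pool.Agent.RamV.final_large h hks hG'
  · refine Pool.Agent.RamQ.final hk hks ?_ hG'
    have hlog : 0 < Nat.log 2 k := Nat.log_pos (by norm_num) hk
    rcases le_max_iff.mp h with h | h
    · left
      have := (Nat.le_div_iff_mul_le (by norm_num)).mp h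
      omega
    · right
      have := (Nat.le_div_iff_mul_le (by positivity)).mp h
      calc 2 ^ 26 * s * Nat.log 2 k = s * (2 ^ 26 * Nat.log 2 k) := by ring
        _ ≤ k ^ 3 := this
  · refine Pool.Agent.RamH.gd_final hks ?_ hG'
    refine Pool.Agent.RamH.num_range_explicit k s h1 hks ?_ _ ?_
    · have e : (1 / 100 : ℝ) * (k : ℝ) ^ (1 / 4 : ℝ) = (k : ℝ) ^ (1 / 4 : ℝ) / 100 := by ring
      rw [e]
      exact h2
    · intro p hp
      exact Pool.Agent.RamseyHam.isRam_ramsey (by omega) (by omega)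

end Pool.Agent.Results.MP_078aef_co.AllLarge
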