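import Pool.Agent.Lib.MP_078aef_co_row.Fin

/-!
For every `k ≥ 4` there are infinitely many `s` such that every Ramsey-critical `(k,s)`-graph is
Hamiltonian.
-/

namespace Pool.Agent.Results.MP_078aef_co.EveryRow

/-- The Ramsey number `R(k,s)`: the least `n` such that every graph on `n` vertices contains
`K_k` or has independence number at least `s`. -/
noncomputable def ramsey (k s : ℕ) : ℕ :=
  sInf {n : ℕ | ∀ H : SimpleGraph (Fin n), ¬ H.CliqueFree k ∨ s ≤ H.indepNum}

/-- A graph is Ramsey-critical if it has no `K_k`, independence number less than `s`, and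
exactly `R(k,s) - 1` vertices. -/
structure IsCritical {V : Type*} [Fintype V] (k s : ℕ) (G : SimpleGraph V) : Prop where
  cliqueFree : G.CliqueFree k
  indep : G.indepNum < s
  card : Fintype.card V = ramsey k s - 1

theorem result (k : ℕ) (hk : 4 ≤ k) : Set.Infinite {s : ℕ | k + 2 ≤ s ∧
    ∀ (V : Type) [Fintype V] [DecidableEq V] (G : SimpleGraph V), IsCritical k s G →
      ∃ (a : V) (p : G.Walk a a), p.IsHamiltonianCycle} := by
  rw [Set.infinite_iff_exists_gt]
  intro S
  obtain ⟨s, hs, h⟩ := Pool.Agent.RamseyRow.rows k hk (max (S + 1) (k + 2))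
  refine ⟨s, ⟨(le_max_right _ _).trans hs, ?_⟩, ?_⟩
  · intro V _ _ G hG
    exact h V G ⟨hG.cliqueFree, hG.indep, hG.card⟩
  · have := (le_max_left (S + 1) (k + 2)).trans hs
    omega

end Pool.Agent.Results.MP_078aef_co.EveryRow
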