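import Pool.Agent.Lib.MP_078aef_co_h.Gaps

/-!
For every `k ≥ 352` and `X ≥ k` there is some `s` with
`X ≤ s ≤ X + 42 (k + log₂ X) X^(14/(k-1))` such that every Ramsey-critical `(k,s)`-graph is
Hamiltonian.
-/

namespace Pool.Agent.Results.MP_078aef_co.ShortGaps

/-- The Ramsey number `R(k,s)`: the least `n` such that every graph on `n` vertices contains
`K_k` or has independence number at least `s`. -/
noncomputable def ramsey (k s : ℕ) : ℕ :=
  sInf {n : ℕ | ∀ H : SimpleGraph (Fin n), ¬ H.CliqueFree k ∨ s ≤ H.indepNum}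

/-- A graph is Ramsey-critical if it has no `K_k`, independence number less than `s`, and
exactly `R(k,s) - 1` vertices. -/
structure IsCritical {V : Type*} [Fintype V] (k s : ℕ) (G : SimpleGraph V) : Prop where
  cliqueFree : G.CliqueFree k
  indep : G.indepNum < s
  card : Fintype.card V = ramsey k s - 1

theorem result (k X : ℕ) (hk : 352 ≤ k) (hX : k ≤ X) : ∃ s : ℕ, X ≤ s ∧
    (s : ℝ) ≤ X + 42 * (k + Real.logb 2 X) * (X : ℝ) ^ (14 / ((k : ℝ) - 1)) ∧
    ∀ (V : Type) [Fintype V] [DecidableEq V] (G : SimpleGraph V), IsCritical k s G →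
      ∃ (a : V) (p : G.Walk a a), p.IsHamiltonianCycle := by
  obtain ⟨s, h1, h2, h3⟩ := Pool.Agent.RamH.gap_final hk hX
  exact ⟨s, h1, h2, fun V _ _ G hG => h3 V G ⟨hG.cliqueFree, hG.indep, hG.card⟩⟩

end Pool.Agent.Results.MP_078aef_co.ShortGaps
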